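import Pool.Agent.Work.MP_88b7aa_gt.D.P15_15i_15i.F0
import Pool.Agent.Work.MP_88b7aa_gt.D.P15_15i_15i.F1
import Pool.Agent.Work.MP_88b7aa_gt.D.P15_15i_15i.F2
import Pool.Agent.Work.MP_88b7aa_gt.D.P15_15i_15i.F3
import Pool.Agent.Work.MP_88b7aa_gt.D.P15_15i_15i.F4
import Pool.Agent.Work.MP_88b7aa_gt.D.P15_15i_15i.F5
import Pool.Agent.Work.MP_88b7aa_gt.D.P15_15i_15i.F6

/-! The class is done. -/

set_option autoImplicit false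

namespace Pool.Agent.Work.MP_88b7aa_gt.D.P15_15i_15i

open Pool.Agent.Work.MP_88b7aa_gt.PQ
open Pool.Agent.Work.MP_88b7aa_gt.Kc

theorem g0 : CGood (KS (.ex 15) (.iv 15 0) (.iv 15 0)) H.k ⟨275324073136132, 0, 0, 0, 0, 8⟩ ⟨276067612884992, 0, 0, 773094113280, 0, 0⟩ ⟨276063317917696, 0, 773094113280, 0, 0, 0⟩ ⟨131564182700032, 0, 55928422400, 57783353344, 0, 0⟩ :=
  mC_good H_ok M0.k LB.nil LC.nil

theorem g1 : CGood (KS (.ex 15) (.iv 15 0) (.iv 15 0)) H.k ⟨275324073136132, 0, 0, 0, 0, 8⟩ ⟨277227254054912, 0, 0, 386547056640, 0, 0⟩ ⟨276063317917696, 0, 773094113280, 0, 0, 0⟩ ⟨131670568075264, 0, 0, 0, 0, 0⟩ :=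
  mC_good H_ok M1.k LB.nil LC.nil

theorem g2 : CGood (KS (.ex 15) (.iv 15 0) (.iv 15 0)) H.k ⟨275324073136132, 0, 0, 0, 0, 8⟩ ⟨277613801111552, 0, 0, 773094113280, 0, 0⟩ ⟨276063317917696, 0, 773094113280, 0, 0, 0⟩ ⟨131679749406720, 0, 55928422400, 57783353344, 0, 0⟩ :=
  mC_good H_ok M2.k LB.nil (LC.cons g1 LC.nil)

theorem g3 : CGood (KS (.ex 15) (.iv 15 0) (.iv 15 0)) H.k ⟨275324073136132, 0, 0, 0, 0, 8⟩ ⟨276067612884992, 0, 0, 773094113280, 0, 0⟩ ⟨276836412030976, 0, 1546188226560, 0, 0, 0⟩ ⟨131620111122432, 0, 111856844800, 57783353344, 0, 0⟩ :=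
  mC_good H_ok M3.k LB.nil (LC.cons g0 LC.nil)

theorem g4 : CGood (KS (.ex 15) (.iv 15 0) (.iv 15 0)) H.k ⟨275324073136132, 0, 0, 0, 0, 8⟩ ⟨276840706998272, 0, 0, 1546188226560, 0, 0⟩ ⟨276836412030976, 0, 1546188226560, 0, 0, 0⟩ ⟨131677894475776, 0, 111856844800, 115566706688, 0, 0⟩ :=
  mC_good H_ok M4.k LB.nil (LC.cons g3 (LC.cons g2 LC.nil))

theorem g5 : CGood (KS (.ex 15) (.iv 15 0) (.iv 15 0)) H.k ⟨275324073136132, 0, 0, 0, 0, 8⟩ ⟨276067612884992, 0, 0, 773094113280, 0, 0⟩ ⟨279155694370816, 0, 773094113280, 0, 0, 0⟩ ⟨131856932536320, 0, 52398391296, 60239642624, 0, 0⟩ :=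
  mC_good H_ok M5.k LB.nil LC.nil

theorem g6 : CGood (KS (.ex 15) (.iv 15 0) (.iv 15 0)) H.k ⟨275324073136132, 0, 0, 0, 0, 8⟩ ⟨276454159941632, 0, 0, 386547056640, 0, 0⟩ ⟨280701882597376, 0, 773094113280, 0, 0, 0⟩ ⟨131989591031808, 0, 49690968064, 30492590080, 0, 0⟩ :=
  mC_good H_ok M6.k LB.nil LC.nil

theorem g7 : CGood (KS (.ex 15) (.iv 15 0) (.iv 15 0)) H.k ⟨275324073136132, 0, 0, 0, 0, 8⟩ ⟨275681065828352, 0, 0, 386547056640, 0, 0⟩ ⟨280701882597376, 0, 773094113280, 0, 0, 0⟩ ⟨131854686486528, 0, 50969182208, 30406606848, 0, 0⟩ :=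
  mC_good H_ok M7.k LB.nil LC.nil

theorem g8 : CGood (KS (.ex 15) (.iv 15 0) (.iv 15 0)) H.k ⟨275324073136132, 0, 0, 0, 0, 8⟩ ⟨276067612884992, 0, 0, 773094113280, 0, 0⟩ ⟨280701882597376, 0, 773094113280, 0, 0, 0⟩ ⟨131885093093376, 0, 50969182208, 60813213696, 0, 0⟩ :=
  mC_good H_ok M8.k LB.nil (LC.cons g7 (LC.cons g6 LC.nil))

theorem g9 : CGood (KS (.ex 15) (.iv 15 0) (.iv 15 0)) H.k ⟨275324073136132, 0, 0, 0, 0, 8⟩ ⟨276067612884992, 0, 0, 773094113280, 0, 0⟩ ⟨279928788484096, 0, 1546188226560, 0, 0, 0⟩ ⟨131834123911168, 0, 101938364416, 60813213696, 0, 0⟩ :=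
  mC_good H_ok M9.k LB.nil (LC.cons g5 (LC.cons g8 LC.nil))

theorem g10 : CGood (KS (.ex 15) (.iv 15 0) (.iv 15 0)) H.k ⟨275324073136132, 0, 0, 0, 0, 8⟩ ⟨277613801111552, 0, 0, 773094113280, 0, 0⟩ ⟨280701882597376, 0, 773094113280, 0, 0, 0⟩ ⟨132079052390400, 0, 50546606080, 58631127040, 0, 0⟩ :=
  mC_good H_ok M10.k LB.nil LC.nil

theorem g11 : CGood (KS (.ex 15) (.iv 15 0) (.iv 15 0)) H.k ⟨275324073136132, 0, 0, 0, 0, 8⟩ ⟨277613801111552, 0, 0, 773094113280, 0, 0⟩ ⟨279155694370816, 0, 773094113280, 0, 0, 0⟩ ⟨131901409984512, 0, 51967426560, 58064896000, 0, 0⟩ :=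
  mC_good H_ok M11.k LB.nil LC.nil

theorem g12 : CGood (KS (.ex 15) (.iv 15 0) (.iv 15 0)) H.k ⟨275324073136132, 0, 0, 0, 0, 8⟩ ⟨277613801111552, 0, 0, 773094113280, 0, 0⟩ ⟨279928788484096, 0, 1546188226560, 0, 0, 0⟩ ⟨131953377411072, 0, 103934853120, 58064896000, 0, 0⟩ :=
  mC_good H_ok M12.k LB.nil (LC.cons g11 (LC.cons g10 LC.nil))

theorem g13 : CGood (KS (.ex 15) (.iv 15 0) (.iv 15 0)) H.k ⟨275324073136132, 0, 0, 0, 0, 8⟩ ⟨276840706998272, 0, 0, 1546188226560, 0, 0⟩ ⟨279928788484096, 0, 1546188226560, 0, 0, 0⟩ ⟨131755844567040, 0, 104990769152, 118486990848, 0, 0⟩ :=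
  mC_good H_ok M13.k LB.nil (LC.cons g9 (LC.cons g12 LC.nil))

theorem g14 : CGood (KS (.ex 15) (.iv 15 0) (.iv 15 0)) H.k ⟨275324073136132, 0, 0, 0, 0, 8⟩ ⟨279159989338112, 0, 0, 773094113280, 0, 0⟩ ⟨277609506144256, 0, 773094113280, 0, 0, 0⟩ ⟨131912820064256, 0, 0, 0, 0, 0⟩ :=
  mC_good H_ok M14.k LB.nil LC.nil

theorem g15 : CGood (KS (.ex 15) (.iv 15 0) (.iv 15 0)) H.k ⟨275324073136132, 0, 0, 0, 0, 8⟩ ⟨279159989338112, 0, 0, 773094113280, 0, 0⟩ ⟨277609506144256, 0, 773094113280, 0, 0, 0⟩ ⟨131819452760064, 0, 0, 0, 0, 0⟩ :=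
  mC_good H_ok M15.k LB.nil (LC.cons g14 LC.nil)

theorem g16 : CGood (KS (.ex 15) (.iv 15 0) (.iv 15 0)) H.k ⟨275324073136132, 0, 0, 0, 0, 8⟩ ⟨279159989338112, 0, 0, 773094113280, 0, 0⟩ ⟨279155694370816, 0, 773094113280, 0, 0, 0⟩ ⟨132014355251200, 0, 52356448256, 55890149376, 0, 0⟩ :=
  mC_good H_ok M16.k LB.nil LC.nil

theorem g17 : CGood (KS (.ex 15) (.iv 15 0) (.iv 15 0)) H.k ⟨275324073136132, 0, 0, 0, 0, 8⟩ ⟨279159989338112, 0, 0, 773094113280, 0, 0⟩ ⟨279928788484096, 0, 1546188226560, 0, 0, 0⟩ ⟨132066711699456, 0, 104712896512, 55890149376, 0, 0⟩ :=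
  mC_good H_ok M17.k LB.nil (LC.cons g16 LC.nil)

theorem g18 : CGood (KS (.ex 15) (.iv 15 0) (.iv 15 0)) H.k ⟨275324073136132, 0, 0, 0, 0, 8⟩ ⟨280706177564672, 0, 0, 773094113280, 0, 0⟩ ⟨279155694370816, 0, 773094113280, 0, 0, 0⟩ ⟨132123096252416, 0, 52138868736, 53380907008, 0, 0⟩ :=
  mC_good H_ok M18.k LB.nil LC.nil

theorem g19 : CGood (KS (.ex 15) (.iv 15 0) (.iv 15 0)) H.k ⟨275324073136132, 0, 0, 0, 0, 8⟩ ⟨280706177564672, 0, 0, 773094113280, 0, 0⟩ ⟨279928788484096, 0, 1546188226560, 0, 0, 0⟩ ⟨132175235121152, 0, 104277737472, 53380907008, 0, 0⟩ :=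
  mC_good H_ok M19.k LB.nil (LC.cons g18 LC.nil)

theorem g20 : CGood (KS (.ex 15) (.iv 15 0) (.iv 15 0)) H.k ⟨275324073136132, 0, 0, 0, 0, 8⟩ ⟨279933083451392, 0, 0, 1546188226560, 0, 0⟩ ⟨276836412030976, 0, 1546188226560, 0, 0, 0⟩ ⟨131773509402624, 0, 104784723968, 109669515264, 0, 0⟩ :=
  mC_good H_ok M20.k LB.nil (LC.cons g15 LC.nil)

theorem g21 : CGood (KS (.ex 15) (.iv 15 0) (.iv 15 0)) H.k ⟨275324073136132, 0, 0, 0, 0, 8⟩ ⟨279933083451392, 0, 0, 1546188226560, 0, 0⟩ ⟨278382600257536, 0, 3092376453120, 0, 0, 0⟩ ⟨131878294126592, 0, 209569447936, 109669515264, 0, 0⟩ :=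
  mC_good H_ok M21.k LB.nil (LC.cons g20 (LC.cons g17 (LC.cons g19 LC.nil)))

theorem g22 : CGood (KS (.ex 15) (.iv 15 0) (.iv 15 0)) H.k ⟨275324073136132, 0, 0, 0, 0, 8⟩ ⟨278386895224832, 0, 0, 3092376453120, 0, 0⟩ ⟨278382600257536, 0, 3092376453120, 0, 0, 0⟩ ⟨131577730301952, 0, 210914770944, 225445937152, 0, 0⟩ :=
  mC_good H_ok M22.k LB.nil (LC.cons g4 (LC.cons g13 (LC.cons g21 LC.nil)))

theorem g23 : CGood (KS (.ex 15) (.iv 15 0) (.iv 15 0)) H.k ⟨275324073136132, 0, 0, 0, 0, 8⟩ ⟨278386895224832, 0, 0, 3092376453120, 0, 0⟩ ⟨278382600257536, 0, 3092376453120, 0, 0, 0⟩ ⟨126954674061312, 0, 210914770944, 225445937152, 0, 0⟩ :=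
  mC_good H_ok M23.k LB.nil (LC.cons g22 LC.nil)

theorem g24 : CGood (KS (.ex 15) (.iv 15 0) (.iv 15 0)) H.k ⟨275324073136132, 0, 0, 0, 0, 8⟩ ⟨278386895224832, 0, 0, 3092376453120, 0, 0⟩ ⟨278382600257536, 0, 3092376453120, 0, 0, 0⟩ ⟨91873511211008, 0, 221929013248, 221878681600, 0, 0⟩ :=
  mC_good H_ok M24.k LB.nil (LC.cons g23 LC.nil)

theorem g25 : CGood (KS (.ex 15) (.iv 15 0) (.iv 15 0)) H.k ⟨275324073136132, 0, 0, 0, 0, 8⟩ ⟨278386895224832, 0, 0, 3092376453120, 0, 0⟩ ⟨278382600257536, 0, 3092376453120, 0, 0, 0⟩ ⟨0, 0, 0, 0, 0, 0⟩ :=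
  mC_good H_ok M25.k LB.nil (LC.cons g24 LC.nil)

theorem done : Done (KS (.ex 15) (.iv 15 0) (.iv 15 0)) := fin (by decide +kernel) g25

end Pool.Agent.Work.MP_88b7aa_gt.D.P15_15i_15i
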